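import Pool.Agent.helper9.HQ.Spec

/-!
# Project hq, row BAS: one or two classes
-/

set_option autoImplicit false
set_option linter.unusedVariables false

open scoped Classical

namespace Pool.Agent.helper9.HQ

open Finset
open Pool.Agent.helper65.HC (V IsEig IsTop lam)

theorem BAS_quad {p q r a b : ℝ} (hp : 0 ≤ p) (hq : 0 ≤ q) (h : p * q = r ^ 2) :
    0 ≤ p * a ^ 2 + q * b ^ 2 - 2 * r * a * b := by
  rcases hp.eq_or_lt with h0 | h0
  · rw [← h0, zero_mul] at h
    have hr : r = 0 := by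
      have := h.symm
      exact pow_eq_zero_iff (two_ne_zero) |>.1 this
    rw [hr, ← h0]
    have := mul_nonneg hq (sq_nonneg b)
    nlinarith
  · have h1 : 0 ≤ p * (p * a ^ 2 + q * b ^ 2 - 2 * r * a * b) := by
      have h2 : p * (p * a ^ 2 + q * b ^ 2 - 2 * r * a * b) = (p * a - r * b) ^ 2 := by
        calc p * (p * a ^ 2 + q * b ^ 2 - 2 * r * a * b)
            = p ^ 2 * a ^ 2 + (p * q) * b ^ 2 - 2 * p * r * a * b := by ring
          _ = (p * a - r * b) ^ 2 := by rw [h]; ring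
      rw [h2]
      exact sq_nonneg _
    exact nonneg_of_mul_nonneg_right h1 h0

theorem BAS_one : cC 1 = 3 := by
  have h : √(1 - 4 * 1 + 12 * 1 ^ 2 : ℝ) = 3 := by
    rw [show (1 - 4 * 1 + 12 * 1 ^ 2 : ℝ) = 3 ^ 2 by norm_num]
    exact Real.sqrt_sq (by norm_num)
  unfold cC
  rw [h]
  norm_num

theorem BAS_S {s a b : ℝ} (h0 : 0 ≤ s) (h1 : s ≤ 1) :
    (s * a + (1 - s) * b) ^ 2 + 2 * s ^ 2 * a ^ 2 + s * (1 - s) * (a + b) ^ 2
      ≤ cS s * (s * a ^ 2 + (1 - s) * b ^ 2) := by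
  set w : ℝ := √(4 * s - 3 * s ^ 2) with hw
  have hw2 : w ^ 2 = 4 * s - 3 * s ^ 2 := Real.sq_sqrt (by nlinarith)
  have hws : s ≤ w := by
    rw [hw]
    apply Real.le_sqrt_of_sq_le
    nlinarith
  have hw0 : 0 ≤ w := h0.trans hws
  have key := BAS_quad (p := s * (w - s)) (q := (1 - s) * (w + s)) (r := 2 * s * (1 - s)) (a := a)
    (b := b) (mul_nonneg h0 (by linarith)) (mul_nonneg (by linarith) (by linarith)) (by
      calc s * (w - s) * ((1 - s) * (w + s)) = s * (1 - s) * (w ^ 2 - s ^ 2) := by ring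
        _ = (2 * s * (1 - s)) ^ 2 := by rw [hw2]; ring)
  have hc : cS s = 1 + s + w := rfl
  rw [hc]
  nlinarith [key]

theorem BAS_C {s a b : ℝ} (h0 : 0 ≤ s) (h1 : s ≤ 1) :
    (s * a + (1 - s) * b) ^ 2 + 2 * s ^ 2 * a ^ 2 ≤ cC s * (s * a ^ 2 + (1 - s) * b ^ 2) := by
  set w : ℝ := √(1 - 4 * s + 12 * s ^ 2) with hw
  have hD : 0 ≤ 1 - 4 * s + 12 * s ^ 2 := by nlinarith [sq_nonneg (1 - 2 * s)]
  have hw2 : w ^ 2 = 1 - 4 * s + 12 * s ^ 2 := Real.sq_sqrt hD
  have hws : 4 * s - 1 ≤ w := by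
    rw [hw]
    apply Real.le_sqrt_of_sq_le
    nlinarith
  have hws' : 1 - 4 * s ≤ w := by
    rw [hw]
    apply Real.le_sqrt_of_sq_le
    nlinarith
  have hc : cC s = (1 + 2 * s + w) / 2 := rfl
  set la : ℝ := cC s with hla
  have hq : la ^ 2 = (1 + 2 * s) * la - 2 * s * (1 - s) := by
    rw [hc]
    nlinarith [hw2]
  have key := BAS_quad (p := s * (la - 3 * s)) (q := (1 - s) * (la - (1 - s))) (r := s * (1 - s))
    (a := a) (b := b) (mul_nonneg h0 (by rw [hc]; linarith))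
    (mul_nonneg (by linarith) (by rw [hc]; linarith)) (by
      calc s * (la - 3 * s) * ((1 - s) * (la - (1 - s)))
          = s * (1 - s) * (la ^ 2 - (1 + 2 * s) * la + 3 * s * (1 - s)) := by ring
        _ = (s * (1 - s)) ^ 2 := by rw [hq]; ring)
  nlinarith [key]

theorem BAS : BAS_stmt := by
  constructor
  · intro T x a hT hx
    obtain ⟨hx0, hx1⟩ := hx
    rw [Fin.sum_univ_one] at hx1
    have hN : NN x a = a 0 ^ 2 := by
      unfold NN
      rw [Fin.sum_univ_one, hx1, one_mul]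
    rcases Nat.le_one_iff_eq_zero_or_eq_one.1 hT with rfl | rfl
    · have h1 : ar (Wt 1 0) x = 0 := by
        simp [ar, Wt]
      have h2 : Phi (Wt 1 0) x a = a 0 ^ 2 := by
        simp [Phi, Wt, hx1]
      have h3 : (1 : ℝ) ≤ c 0 := by
        have h4 : cS (1 - √(1 - 0)) = 1 := by
          rw [sub_zero, Real.sqrt_one, sub_self]
          simp [cS]
        calc (1 : ℝ) = cS (1 - √(1 - 0)) := h4.symm
          _ ≤ c 0 := le_max_left _ _
      rw [h1, h2, hN]
      nlinarith [sq_nonneg (a 0)]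
    · have h1 : ar (Wt 1 1) x = 1 := by
        simp [ar, Wt, hx1]
      have h2 : Phi (Wt 1 1) x a = 3 * a 0 ^ 2 := by
        simp [Phi, Wt, hx1]
        ring
      have h3 : (3 : ℝ) ≤ c 1 := by
        calc (3 : ℝ) = cC (√1) := by rw [Real.sqrt_one, BAS_one]
          _ ≤ c 1 := le_max_right _ _
      rw [h1, h2, hN]
      nlinarith [sq_nonneg (a 0)]
  · intro T x a hT1 hT2 hx
    obtain ⟨hx0, hx1⟩ := hx
    rw [Fin.sum_univ_two] at hx1
    set s : ℝ := x 0 with hs
    have h1s : x 1 = 1 - s := by linarith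
    have hs0 : 0 ≤ s := hx0 0
    have hs1 : s ≤ 1 := by have := hx0 1; linarith
    have hN : NN x a = s * a 0 ^ 2 + (1 - s) * a 1 ^ 2 := by
      unfold NN
      rw [Fin.sum_univ_two, h1s]
    have hN0 : 0 ≤ s * a 0 ^ 2 + (1 - s) * a 1 ^ 2 :=
      add_nonneg (mul_nonneg hs0 (sq_nonneg _)) (mul_nonneg (by linarith) (sq_nonneg _))
    obtain rfl | rfl : T = 1 ∨ T = 2 := by omega
    · have h1 : ar (Wt 2 1) x = s ^ 2 := by
        unfold ar
        simp only [Fin.sum_univ_two, Wt, Fin.val_zero, Fin.val_one]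
        norm_num
        rw [← hs]
        ring
      have h2 : Phi (Wt 2 1) x a = (s * a 0 + (1 - s) * a 1) ^ 2 + 2 * s ^ 2 * a 0 ^ 2 := by
        unfold Phi
        simp only [Fin.sum_univ_two, Wt, Fin.val_zero, Fin.val_one, h1s]
        norm_num
        rw [← hs]
        ring
      rw [h1, h2, hN]
      refine (BAS_C hs0 hs1).trans (mul_le_mul_of_nonneg_right ?_ hN0)
      calc cC s = cC (√(s ^ 2)) := by rw [Real.sqrt_sq hs0]
        _ ≤ c (s ^ 2) := le_max_right _ _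
    · have h1 : ar (Wt 2 2) x = 2 * s - s ^ 2 := by
        unfold ar
        simp only [Fin.sum_univ_two, Wt, Fin.val_zero, Fin.val_one, h1s]
        norm_num
        rw [← hs]
        ring
      have h2 : Phi (Wt 2 2) x a = (s * a 0 + (1 - s) * a 1) ^ 2 + 2 * s ^ 2 * a 0 ^ 2
          + s * (1 - s) * (a 0 + a 1) ^ 2 := by
        unfold Phi
        simp only [Fin.sum_univ_two, Wt, Fin.val_zero, Fin.val_one, h1s]
        norm_num
        rw [← hs]
        ring
      rw [h1, h2, hN]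
      refine (BAS_S hs0 hs1).trans (mul_le_mul_of_nonneg_right ?_ hN0)
      have h3 : 1 - √(1 - (2 * s - s ^ 2)) = s := by
        rw [show 1 - (2 * s - s ^ 2) = (1 - s) ^ 2 by ring, Real.sqrt_sq (by linarith)]
        ring
      calc cS s = cS (1 - √(1 - (2 * s - s ^ 2))) := by rw [h3]
        _ ≤ c (2 * s - s ^ 2) := le_max_left _ _

end Pool.Agent.helper9.HQ
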